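import Pool.Agent.W_MP_8dd142_lc.Final

/-!
# Diamond gives a non-top ultrafilter without finitely generated Tukey reductions

Problem MP_8dd142_lc, Q1. Under Jensen's diamond principle there are an ultrafilter `U` on `ℕ`
which is not of maximum Tukey type, an ultrafilter `V` and a monotone cofinal map `f : U → V`, such
that no finitely generated monotone map (and no map from a prescribed list of continuum many
monotone maps, for example all monotone Borel maps) is, on some cofinal subset of `U`, a cofinal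
map into `V`; in particular `f` is not finitely generated on any cofinal subset of `U`.
-/

set_option autoImplicit false

namespace Pool.Agent.Results.MP_8dd142_lc.DiamondCounterexample

open Set

/-- `C` is a closed unbounded subset of the first uncountable ordinal. -/
def IsClub (C : Set Ordinal.{0}) : Prop :=
  (∀ α ∈ C, α < Ordinal.omega 1) ∧ (∀ α < Ordinal.omega 1, ∃ β ∈ C, α < β) ∧
    ∀ δ < Ordinal.omega 1, δ ≠ 0 → (∀ α < δ, ∃ β ∈ C, α < β ∧ β < δ) → δ ∈ C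

/-- Jensen's diamond principle for the first uncountable ordinal. -/
def Diamond : Prop :=
  ∃ S : Ordinal.{0} → Set Ordinal.{0}, ∀ A : Set Ordinal.{0}, (∀ α ∈ A, α < Ordinal.omega 1) →
    ∀ C : Set Ordinal.{0}, IsClub C → ∃ δ ∈ C, A ∩ Iio δ = S δ

/-- `C` is a cofinal subset of the ultrafilter `U`. -/
def CofinalIn (C : Set (Set ℕ)) (U : Ultrafilter ℕ) : Prop :=
  (∀ Y ∈ C, Y ∈ U) ∧ ∀ X ∈ U, ∃ Y ∈ C, Y ⊆ X

/-- `U` is of maximum Tukey type: some map from the finite subsets of a set of size continuum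
to `U` sends unbounded sets to unbounded sets. -/
def TukeyTop (U : Ultrafilter ℕ) : Prop :=
  ∃ g : Finset (Set ℕ) → Set ℕ, (∀ s, g s ∈ U) ∧
    ∀ A : Set (Finset (Set ℕ)), (∃ Y ∈ U, ∀ s ∈ A, Y ⊆ g s) →
      ∃ t : Finset (Set ℕ), ∀ s ∈ A, s ⊆ t

/-- `f` is a monotone cofinal map from `U` to `V`. -/
def MonotoneCofinal (U V : Ultrafilter ℕ) (f : Set ℕ → Set ℕ) : Prop :=
  (∀ X ∈ U, f X ∈ V) ∧ (∀ X ∈ U, ∀ Y ∈ U, Y ⊆ X → f Y ⊆ f X) ∧
    ∀ B : Set (Set ℕ), (∀ Y ∈ B, Y ∈ U) → (∀ X ∈ U, ∃ Y ∈ B, Y ⊆ X) → ∀ Z ∈ V, ∃ Y ∈ B, f Y ⊆ Z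

/-- `F` is finitely generated on `C`: `F X` is the union of the sets `fh (X ∩ k)` for a monotone
map `fh` on finite sets. -/
def FinGenOn (C : Set (Set ℕ)) (F : Set ℕ → Set ℕ) : Prop :=
  ∃ fh : Finset ℕ → Finset ℕ, (∀ s t : Finset ℕ, s ⊆ t → fh s ⊆ fh t) ∧
    ∀ X ∈ C, F X = {m : ℕ | ∃ k : ℕ, ∃ s : Finset ℕ, (s : Set ℕ) = X ∩ Set.Iio k ∧ m ∈ fh s}

/-- Under diamond, for every family `Φ` of monotone maps indexed by the sets of naturals there are
a non-top ultrafilter `U`, an ultrafilter `V` and a monotone cofinal `f : U → V` which is not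
finitely generated on any cofinal set; moreover no map which is finitely generated, or agrees with
some `Φ A`, on a cofinal `C ⊆ U` maps `C` to a base of `V`. -/
theorem result (hD : Diamond) (Φ : Set ℕ → Set ℕ → Set ℕ)
    (hΦ : ∀ A X Y, X ⊆ Y → Φ A X ⊆ Φ A Y) :
    ∃ (U V : Ultrafilter ℕ) (f : Set ℕ → Set ℕ), ¬ TukeyTop U ∧ MonotoneCofinal U V f ∧
      (¬ ∃ C, CofinalIn C U ∧ FinGenOn C f) ∧
      ∀ (C : Set (Set ℕ)) (F : Set ℕ → Set ℕ), CofinalIn C U →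
        (FinGenOn C F ∨ ∃ A : Set ℕ, ∀ X ∈ C, F X = Φ A X) →
        ¬ ((∀ X ∈ C, F X ∈ V) ∧ ∀ D ∈ V, ∃ X ∈ C, F X ⊆ D) := by
  obtain ⟨U, hU, V, f, h1, h2, h3, h4⟩ := Pool.MP_8dd142_lc.W.diamond_not hD Φ hΦ
  refine ⟨U, V, f, hU, ⟨h1, h2, h3⟩, ?_, ?_⟩
  · rintro ⟨C, ⟨hC1, hC2⟩, hfin⟩
    refine h4 C hC1 hC2 f (Or.inl hfin) ⟨fun X hX => h1 X (hC1 X hX), ?_⟩
    exact h3 C hC1 hC2
  · rintro C F ⟨hC1, hC2⟩ hF
    exact h4 C hC1 hC2 F hF

end Pool.Agent.Results.MP_8dd142_lc.DiamondCounterexample
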