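import Pool.Agent.W_8dd142_h88.Top

/-!
# A model of ZFC in which the negated form of Q1 holds (problem MP_8dd142_lc)

`Fml`, `Fml.Sat`, `IsZFC` (first-order formulas, satisfaction, models of ZFC) are defined in
`Pool.Agent.W_MP_0bf392_lc.Defs`, the set-theoretic notions of a structure `(M, E)` in
`Pool.Agent.W_8dd142_h88.Defs`. The model is the quotient of the Boolean-valued universe over the
regular open algebra of a countably closed preorder by an arbitrary ultrafilter.
-/

namespace Pool.Agent.Results.MP_8dd142_lc.ModelCounterexample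

open IM TKF BVM

/-- There is a model `(M, E)` of ZFC with ultrafilters `U` and `V` on its `ω` and a monotone cofinal
map `f` from `U` to `V` such that `U` is not of maximum Tukey type and `f` is finitely generated on
no cofinal subset of `U`; moreover no map which is finitely generated on a cofinal subset `C` of
`U` maps `C` to a base of `V`. All notions are those of the model. -/
theorem result : ∃ (M : Type 2) (E : M → M → Prop), IsZFC E ∧
    ∃ w U V f, IsOmega E w ∧ IsUltra E w U ∧ IsUltra E w V ∧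
      ¬ IsTukeyTop E w U ∧ IsMonCofinal E f U V ∧
      (∀ C, IsCofinal E C U → ¬ IsFinGenOn E w f C) ∧
      ∀ C h, IsCofinal E C U → IsMap E h C V → IsFinGenOn E w h C →
        ¬ ∀ z, E z V → ∃ y y', E y C ∧ App E h y y' ∧ Sub E y' z := by
  let p₀ : Cond := ⟨Pool.MP_8dd142_lc.W.Sys.base, Pool.MP_8dd142_lc.W.Sys.base_ctb⟩
  obtain ⟨lam, hl, _⟩ := exists_uf p₀
  have hUlt := isUltra_U hl
  have hF := isMonCofinal_F hl
  refine ⟨X hl, E hl, isZFC hl, val hl (omB _), val hl nU, val hl nV, val hl nF, isOmega_omB,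
    hUlt, isUltra_V hl, not_tukeyTop hl, hF, ?_, ?_⟩
  · rintro C hC ⟨d, F, hd, hF1, hF2, hF3⟩
    refine not_badGen hl C d F ⟨hC, hd, hF1, hF2, fun x hx => ?_, fun z hz => ?_⟩
    · obtain ⟨y, hy, _⟩ := hF.1.2 x (hC.1 x hx)
      exact ⟨y, (hF.1.mem hy).2, hF3 x y hx hy⟩
    · obtain ⟨y, y', hy, hyy, hz'⟩ := hF.2.2 C hC z hz
      exact ⟨y, y', hy, hF3 y y' hy hyy, hz'⟩
  · rintro C h hC hh ⟨d, F, hd, hF1, hF2, hF3⟩ hbase
    refine not_badGen hl C d F ⟨hC, hd, hF1, hF2, fun x hx => ?_, fun z hz => ?_⟩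
    · obtain ⟨y, hy, _⟩ := hh.2 x hx
      exact ⟨y, (hh.mem hy).2, hF3 x y hx hy⟩
    · obtain ⟨y, y', hy, hyy, hz'⟩ := hbase z hz
      exact ⟨y, y', hy, hF3 y y' hy hyy, hz'⟩

end Pool.Agent.Results.MP_8dd142_lc.ModelCounterexample
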